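import Pool.Agent.W984.PH.Stm

/-!
Project PH: consequences of the deletion inequality.
-/

set_option autoImplicit false

open Finset

namespace Pool.Agent.W239.PHK

open Pool.Agent.W984.PH

theorem dg_eq {V : Type} [DecidableEq V] [Fintype V] (x : V → ℝ) (Q : Finset (Finset V)) (v : V) :
    dg x Q v = ms x Q univ - ms x Q (univ.erase v) := by
  unfold dg ms
  rw [eq_sub_iff_add_eq]
  have h1 : Q.filter (fun e => e ⊆ (univ : Finset V)) = Q := by
    apply Finset.filter_true_of_mem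
    intro e _
    exact Finset.subset_univ e
  have h2 : Q.filter (fun e => e ⊆ (univ : Finset V).erase v) = Q.filter (fun e => ¬ v ∈ e) := by
    apply Finset.filter_congr
    intro e _
    constructor
    · intro h hv
      exact Finset.notMem_erase v _ (h hv)
    · intro h w hw
      refine Finset.mem_erase.2 ⟨?_, Finset.mem_univ w⟩
      rintro rfl
      exact h hw
  rw [h1, h2]
  exact Finset.sum_filter_add_sum_filter_not Q (fun e => v ∈ e) _

theorem pow_bound (y : ℝ) (hy0 : 0 ≤ y) (hy1 : y ≤ 1) (k : ℕ) :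
    (1 - y) ^ (k + 1) * (1 + ((k : ℝ) + 1) * y) ≤ 1 - y ^ 2 := by
  induction k with
  | zero =>
    simp
    nlinarith
  | succ k ih =>
    have hs : 0 ≤ (1 - y) ^ (k + 1) := pow_nonneg (by linarith) _
    have h1 : (1 - y) * (1 + ((k : ℝ) + 1 + 1) * y) ≤ 1 + ((k : ℝ) + 1) * y := by
      have hk : (0 : ℝ) ≤ (k : ℝ) := Nat.cast_nonneg k
      nlinarith [mul_nonneg hk (sq_nonneg y), sq_nonneg y]
    calc (1 - y) ^ (k + 1 + 1) * (1 + (((k + 1 : ℕ) : ℝ) + 1) * y)
        = (1 - y) ^ (k + 1) * ((1 - y) * (1 + ((k : ℝ) + 1 + 1) * y)) := by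
          push_cast
          ring
      _ ≤ (1 - y) ^ (k + 1) * (1 + ((k : ℝ) + 1) * y) := mul_le_mul_of_nonneg_left h1 hs
      _ ≤ 1 - y ^ 2 := ih

theorem dg_nonneg {V : Type} [DecidableEq V] (x : V → ℝ) (Q : Finset (Finset V)) (v : V)
    (hx : ∀ v, 0 ≤ x v) : 0 ≤ dg x Q v :=
  Finset.sum_nonneg (fun _ _ => Finset.prod_nonneg (fun v _ => hx v))

theorem main (h : S_BU) : S_KKT := by
  intro V _ _ F r x hr hF hx hsum hdel
  obtain ⟨k, rfl⟩ : ∃ k, r = k + 2 := ⟨r - 2, by omega⟩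
  obtain ⟨Q, hQ⟩ : ∃ Q, Q = (univ : Finset V).powersetCard (k + 2) \ F := ⟨_, rfl⟩
  rw [← hQ]
  obtain ⟨Phi, hPhi⟩ : ∃ Phi, Phi = ms x F univ := ⟨_, rfl⟩
  rw [← hPhi]
  rw [← hPhi] at hdel
  obtain ⟨D, hD⟩ : ∃ D : ℝ, D = 1 - ((k + 2).factorial : ℝ) * Phi := ⟨_, rfl⟩
  rw [← hD]
  have hfpos : (0 : ℝ) < ((k + 2).factorial : ℝ) := by exact_mod_cast Nat.factorial_pos _
  have hsplit : ∀ U : Finset V, es x U (k + 2) = ms x F U + ms x Q U := by
    intro U
    rw [hQ]
    exact es_eq_ms_add x F (k + 2) hF U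
  have hmsQ0 : ∀ U : Finset V, 0 ≤ ms x Q U := fun U => ms_nonneg x Q U hx
  have hPhi0 : 0 ≤ Phi := by rw [hPhi]; exact ms_nonneg x F univ hx
  have hes1 : ((k + 2).factorial : ℝ) * es x univ (k + 2) ≤ 1 := by
    have := es_le_pow x univ (fun v _ => hx v) (k + 2)
    rw [hsum, one_pow] at this
    exact this
  have hD0 : 0 ≤ D := by
    rw [hD]
    have h1 := hsplit univ
    rw [← hPhi] at h1
    rw [h1, mul_add] at hes1
    have h2 := mul_nonneg hfpos.le (hmsQ0 univ)
    linarith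
  have hrD0 : 0 ≤ ((k + 2 : ℕ) : ℝ) * D := mul_nonneg (Nat.cast_nonneg _) hD0
  have hkey : ∀ v, ((k + 2).factorial : ℝ) * dg x Q v ≤
      D * (((k + 2 : ℕ) : ℝ) * x v) - (x v) ^ 2 := by
    intro v
    have hy0 := hx v
    have hsum2 : x v + ∑ w ∈ univ.erase v, x w = 1 := by
      rw [Finset.add_sum_erase univ x (Finset.mem_univ v)]
      exact hsum
    have hy1 : x v ≤ 1 := by
      have : 0 ≤ ∑ w ∈ univ.erase v, x w := Finset.sum_nonneg (fun w _ => hx w)
      linarith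
    have hs : ∑ w ∈ univ.erase v, x w = 1 - x v := by linarith
    have h1 : dg x Q v = x v * es x (univ.erase v) (k + 1) - Phi + ms x F (univ.erase v) := by
      rw [dg_eq]
      have e1 := hsplit univ
      have e2 := hsplit (univ.erase v)
      have e3 := es_erase x univ v (Finset.mem_univ v) (k + 1)
      rw [← hPhi] at e1
      have e4 : k + 1 + 1 = k + 2 := rfl
      rw [e4] at e3
      linarith
    have h2 := hdel v
    have h3 := es_le_pow x (univ.erase v) (fun w _ => hx w) (k + 1)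
    rw [hs] at h3
    have h4 : ((k + 2).factorial : ℝ) = ((k + 2 : ℕ) : ℝ) * ((k + 1).factorial : ℝ) := by
      rw [Nat.factorial_succ]
      push_cast
      ring
    have h5 : ((k + 2).factorial : ℝ) * (x v * es x (univ.erase v) (k + 1)) ≤
        ((k + 2 : ℕ) : ℝ) * x v * (1 - x v) ^ (k + 1) := by
      rw [h4]
      calc ((k + 2 : ℕ) : ℝ) * ((k + 1).factorial : ℝ) * (x v * es x (univ.erase v) (k + 1))
          = ((k + 2 : ℕ) : ℝ) * x v * (((k + 1).factorial : ℝ) * es x (univ.erase v) (k + 1)) := by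
            ring
        _ ≤ ((k + 2 : ℕ) : ℝ) * x v * (1 - x v) ^ (k + 1) :=
            mul_le_mul_of_nonneg_left h3 (mul_nonneg (Nat.cast_nonneg _) hy0)
    have h6 : ((k + 2).factorial : ℝ) * ms x F (univ.erase v) ≤
        ((k + 2).factorial : ℝ) * (Phi * (1 - x v) ^ (k + 2)) :=
      mul_le_mul_of_nonneg_left h2 hfpos.le
    have h7 : ((k + 2).factorial : ℝ) * Phi = 1 - D := by rw [hD]; ring
    have h8 : ((k + 2).factorial : ℝ) * dg x Q v ≤
        ((k + 2 : ℕ) : ℝ) * x v * (1 - x v) ^ (k + 1) - (1 - D) * (1 - (1 - x v) ^ (k + 2)) := by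
      rw [h1]
      have e1 : ((k + 2).factorial : ℝ) * (Phi * (1 - x v) ^ (k + 2)) =
          (1 - D) * (1 - x v) ^ (k + 2) := by rw [← h7]; ring
      rw [e1] at h6
      have e2 : ((k + 2).factorial : ℝ) *
          (x v * es x (univ.erase v) (k + 1) - Phi + ms x F (univ.erase v)) =
          ((k + 2).factorial : ℝ) * (x v * es x (univ.erase v) (k + 1)) -
          ((k + 2).factorial : ℝ) * Phi + ((k + 2).factorial : ℝ) * ms x F (univ.erase v) := by
        ring
      rw [e2, h7]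
      linarith
    have h9 := pow_bound (x v) hy0 hy1 k
    have h10 : 1 - (1 - x v) ^ (k + 2) ≤ ((k + 2 : ℕ) : ℝ) * x v := by
      have := one_add_mul_le_pow (a := -(x v)) (by linarith) (k + 2)
      have e1 : (1 + -(x v)) = 1 - x v := by ring
      rw [e1] at this
      linarith
    have h11 : D * (1 - (1 - x v) ^ (k + 2)) ≤ D * (((k + 2 : ℕ) : ℝ) * x v) :=
      mul_le_mul_of_nonneg_left h10 hD0
    have h12 : (1 - x v) ^ (k + 2) + ((k + 2 : ℕ) : ℝ) * x v * (1 - x v) ^ (k + 1) =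
        (1 - x v) ^ (k + 1) * (1 + ((k : ℝ) + 1) * x v) := by
      push_cast
      ring
    linarith
  have hle : ∀ v, x v ≤ ((k + 2 : ℕ) : ℝ) * D := by
    intro v
    have h1 := hkey v
    have h2 := mul_nonneg hfpos.le (dg_nonneg x Q v hx)
    rcases (hx v).eq_or_lt with h3 | h3
    · rw [← h3]
      exact hrD0
    · by_contra hcon
      push Not at hcon
      have h4 : ((k + 2 : ℕ) : ℝ) * D * x v < x v * x v := mul_lt_mul_of_pos_right hcon h3
      nlinarith
  refine ⟨hD0, hle, ?_, ?_⟩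
  · intro v
    have h1 := hkey v
    have h2 := sq_nonneg (x v)
    linarith
  · have h1 := h V x univ (((k + 2 : ℕ) : ℝ) * D) (fun v _ => hx v) (fun v _ => hle v) hsum (k + 2)
    have h2 : ∑ v, (x v) ^ 2 ≤ ((k + 2 : ℕ) : ℝ) * D := by
      calc ∑ v, (x v) ^ 2 ≤ ∑ v, (((k + 2 : ℕ) : ℝ) * D) * x v := by
            apply Finset.sum_le_sum
            intro v _
            rw [sq]
            exact mul_le_mul_of_nonneg_right (hle v) (hx v)
        _ = ((k + 2 : ℕ) : ℝ) * D := by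
            rw [← Finset.mul_sum, hsum, mul_one]
    have h3 : ((k + 2 : ℕ) : ℝ) ^ 4 * (((k + 2 : ℕ) : ℝ) * D) * (∑ v, (x v) ^ 2) ≤
        ((k + 2 : ℕ) : ℝ) ^ 6 * D ^ 2 := by
      have e1 : ((k + 2 : ℕ) : ℝ) ^ 6 * D ^ 2 =
          ((k + 2 : ℕ) : ℝ) ^ 4 * (((k + 2 : ℕ) : ℝ) * D) * (((k + 2 : ℕ) : ℝ) * D) := by ring
      rw [e1]
      exact mul_le_mul_of_nonneg_left h2
        (mul_nonneg (pow_nonneg (Nat.cast_nonneg _) 4) hrD0)
    have h4 := hsplit univ
    rw [← hPhi] at h4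
    rw [h4, mul_add] at h1
    have h7 : ((k + 2).factorial : ℝ) * Phi = 1 - D := by rw [hD]; ring
    rw [h7] at h1
    linarith

end Pool.Agent.W239.PHK
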